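import Pool.Agent.Q212.TwoColor

/-!
# MP_c030b7: a Mazurkiewicz set splitting into two Hamel functions under every rotation

The set is `B ∪ -B` for a Hamel basis `B` of `ℝ²` built by transfinite recursion; in each direction
the pairing of its points by parallel lines and the pairing `p ↔ -p` form a bipartite graph, and
both colour classes are Hamel bases and graphs of functions in that direction.
-/

namespace Pool.Agent.Results.MP_c030b7_lc.TwoHamelFunctions

open Pool.Agent.Q212.TwoPoint

/-- **Main theorem** (positive answer to Q1). There is a Mazurkiewicz set `M` such that for every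
angle `θ` the rotated set `rot θ '' M` is the union of the graphs of two Hamel functions. -/
theorem result : ∃ M : Set (ℝ × ℝ), Mazurkiewicz M ∧
    ∀ θ : ℝ, ∃ f g : ℝ → ℝ, HamelFunction f ∧ HamelFunction g ∧
      rot θ '' M = {p : ℝ × ℝ | p.2 = f p.1} ∪ {p : ℝ × ℝ | p.2 = g p.1} :=
  exists_all_directions

end Pool.Agent.Results.MP_c030b7_lc.TwoHamelFunctions
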